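import Mathlib

set_option autoImplicit false

open Finset

namespace Pool.Agent.T2H28.EP

/-- Mean square over all Dirichlet characters modulo a prime. -/
theorem char_ms (q : ℕ) [hq : Fact q.Prime] {ι : Type*} (W : Finset ι) (A B : ι → ℕ)
    (hA : ∀ z ∈ W, ((A z : ℕ) : ZMod q) ≠ 0) (hB : ∀ z ∈ W, ((B z : ℕ) : ZMod q) ≠ 0) :
    ∑ χ : DirichletCharacter ℂ q,
      ‖∑ z ∈ W, χ (A z : ZMod q) * (starRingEnd ℂ) (χ (B z : ZMod q))‖ ^ 2 =
      ((q - 1 : ℕ) : ℝ) * ((W ×ˢ W).filter (fun t : ι × ι =>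
        ((B t.1 : ℕ) : ZMod q) * (A t.2 : ℕ) = (A t.1 : ℕ) * (B t.2 : ℕ))).card := by
  classical
  have hconj : ∀ (χ : DirichletCharacter ℂ q) (a : ZMod q), (starRingEnd ℂ) (χ a) = χ a⁻¹ := by
    intro χ a
    rw [← MulChar.inv_apply' χ a]
    exact MulChar.star_apply' χ a
  apply Complex.ofReal_injective
  push_cast
  have h1 : ∀ χ : DirichletCharacter ℂ q,
      ((‖∑ z ∈ W, χ (A z : ZMod q) * (starRingEnd ℂ) (χ (B z : ZMod q))‖ : ℝ) : ℂ) ^ 2 =
      ∑ z ∈ W, ∑ z' ∈ W, χ (((B z : ZMod q) * (A z' : ZMod q))⁻¹) *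
        χ ((A z : ZMod q) * (B z' : ZMod q)) := by
    intro χ
    rw [← Complex.mul_conj', map_sum, Finset.sum_mul_sum]
    refine Finset.sum_congr rfl fun z _ => Finset.sum_congr rfl fun z' _ => ?_
    rw [map_mul (starRingEnd ℂ), Complex.conj_conj, hconj, hconj, mul_inv, map_mul χ, map_mul χ]
    ring
  simp_rw [h1]
  rw [Finset.sum_comm]
  have h2 : ∀ z ∈ W, ∑ χ : DirichletCharacter ℂ q, ∑ z' ∈ W,
      χ (((B z : ZMod q) * (A z' : ZMod q))⁻¹) * χ ((A z : ZMod q) * (B z' : ZMod q)) =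
      ∑ z' ∈ W, if ((B z : ZMod q) * (A z' : ZMod q)) = (A z : ZMod q) * (B z' : ZMod q)
        then ((q - 1 : ℕ) : ℂ) else 0 := by
    intro z hz
    rw [Finset.sum_comm]
    refine Finset.sum_congr rfl fun z' hz' => ?_
    rw [DirichletCharacter.sum_char_inv_mul_char_eq ℂ
      (IsUnit.mk0 _ (mul_ne_zero (hB z hz) (hA z' hz')))]
    rw [Nat.totient_prime hq.out]
  rw [Finset.sum_congr rfl h2, ← Finset.sum_product', ← Finset.sum_filter, Finset.sum_const,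
    nsmul_eq_mul]
  rw [mul_comm]

end Pool.Agent.T2H28.EP
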