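import Mathlib

set_option autoImplicit false

open Finset MeasureTheory

namespace Pool.Agent.T2H28.EP

/-- Mean square for a random completely multiplicative function. -/
theorem rand_ms {Ω : Type} [MeasurableSpace Ω] (P : Measure Ω) [IsProbabilityMeasure P]
    (f : ℕ → Ω → ℂ) (hm : ∀ n, Measurable (f n))
    (hmul : ∀ m n : ℕ, 1 ≤ m → 1 ≤ n → ∀ ω, f (m * n) ω = f m ω * f n ω)
    (hnorm : ∀ n : ℕ, 1 ≤ n → ∀ ω, ‖f n ω‖ = 1)
    (horth : ∀ m n : ℕ, 1 ≤ m → 1 ≤ n → m ≠ n →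
      ∫ ω, f m ω * (starRingEnd ℂ) (f n ω) ∂P = 0)
    {ι : Type*} (W : Finset ι) (A B : ι → ℕ)
    (hA : ∀ z ∈ W, 1 ≤ A z) (hB : ∀ z ∈ W, 1 ≤ B z) :
    ∫ ω, ‖∑ z ∈ W, f (A z) ω * (starRingEnd ℂ) (f (B z) ω)‖ ^ 2 ∂P =
      (((W ×ˢ W).filter (fun t : ι × ι => A t.1 * B t.2 = B t.1 * A t.2)).card : ℝ) := by
  classical
  have hint : ∀ m n : ℕ, 1 ≤ m → 1 ≤ n →
      Integrable (fun ω => f m ω * (starRingEnd ℂ) (f n ω)) P := by
    intro m n h1 h2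
    refine Integrable.of_bound (C := 1)
      (((hm m).mul (Complex.continuous_conj.measurable.comp (hm n))).aestronglyMeasurable) ?_
    refine Filter.Eventually.of_forall fun ω => ?_
    rw [norm_mul, RCLike.norm_conj, hnorm m h1, hnorm n h2, one_mul]
  apply Complex.ofReal_injective
  rw [← integral_complex_ofReal]
  have h1 : ∀ ω, ((‖∑ z ∈ W, f (A z) ω * (starRingEnd ℂ) (f (B z) ω)‖ ^ 2 : ℝ) : ℂ) =
      ∑ z ∈ W, ∑ z' ∈ W, f (A z * B z') ω * (starRingEnd ℂ) (f (B z * A z') ω) := by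
    intro ω
    push_cast
    rw [← Complex.mul_conj', map_sum, Finset.sum_mul_sum]
    refine Finset.sum_congr rfl fun z hz => Finset.sum_congr rfl fun z' hz' => ?_
    rw [map_mul (starRingEnd ℂ), Complex.conj_conj, hmul _ _ (hA z hz) (hB z' hz'),
      hmul _ _ (hB z hz) (hA z' hz'), map_mul (starRingEnd ℂ)]
    ring
  simp_rw [h1]
  rw [integral_finset_sum _ (fun z hz => integrable_finset_sum _ (fun z' hz' =>
    hint _ _ (Nat.mul_pos (hA z hz) (hB z' hz')) (Nat.mul_pos (hB z hz) (hA z' hz'))))]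
  have h2 : ∀ z ∈ W, ∫ ω, ∑ z' ∈ W, f (A z * B z') ω * (starRingEnd ℂ) (f (B z * A z') ω) ∂P =
      ∑ z' ∈ W, if A z * B z' = B z * A z' then (1 : ℂ) else 0 := by
    intro z hz
    rw [integral_finset_sum _ (fun z' hz' =>
      hint _ _ (Nat.mul_pos (hA z hz) (hB z' hz')) (Nat.mul_pos (hB z hz) (hA z' hz')))]
    refine Finset.sum_congr rfl fun z' hz' => ?_
    split_ifs with h
    · rw [← h]
      have h3 : ∀ ω, f (A z * B z') ω * (starRingEnd ℂ) (f (A z * B z') ω) = 1 := by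
        intro ω
        rw [Complex.mul_conj', hnorm _ (Nat.mul_pos (hA z hz) (hB z' hz'))]
        simp
      simp_rw [h3]
      simp
    · exact horth _ _ (Nat.mul_pos (hA z hz) (hB z' hz')) (Nat.mul_pos (hB z hz) (hA z' hz')) h
  rw [Finset.sum_congr rfl h2, ← Finset.sum_product', ← Finset.sum_filter, Finset.sum_const,
    nsmul_eq_mul, mul_one]
  push_cast
  rfl

/-- A random sequence with a power saving in mean square. -/
theorem rand_sum {Ω : Type} [MeasurableSpace Ω] (P : Measure Ω) [IsProbabilityMeasure P]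
    (g : ℕ → Ω → ℝ) (hg : ∀ n, Measurable (g n)) (hg0 : ∀ n ω, 0 ≤ g n ω)
    (hgb : ∀ n, Integrable (g n) P)
    (C a c : ℝ) (hC : 0 < C) (hc : 0 < c) (ha : 0 ≤ a + 1 - c / 2)
    (h : ∀ n : ℕ, 1 ≤ n → ∫ ω, g n ω ∂P ≤ C * (n : ℝ) ^ (a - c)) :
    ∀ᵐ ω ∂P, ∃ K : ℝ, 0 < K ∧
      (∀ X : ℕ, ∑ n ∈ Icc 1 X, g n ω ≤ K * (X : ℝ) ^ (a + 1 - c / 2)) := by
  have h1 : ∀ n : ℕ, ∫⁻ ω, ENNReal.ofReal (((n + 1 : ℕ) : ℝ) ^ (-(a + 1 - c / 2)) * g (n + 1) ω) ∂P ≤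
      ENNReal.ofReal (C * ((n + 1 : ℕ) : ℝ) ^ (-(1 + c / 2))) := by
    intro n
    rw [← ofReal_integral_eq_lintegral_ofReal ((hgb (n + 1)).const_mul _)
      (Filter.Eventually.of_forall fun ω => mul_nonneg (by positivity) (hg0 _ _))]
    refine ENNReal.ofReal_le_ofReal ?_
    rw [integral_const_mul]
    have h2 := h (n + 1) (by omega)
    have hn : (0 : ℝ) < ((n + 1 : ℕ) : ℝ) := by positivity
    calc ((n + 1 : ℕ) : ℝ) ^ (-(a + 1 - c / 2)) * ∫ ω, g (n + 1) ω ∂P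
        ≤ ((n + 1 : ℕ) : ℝ) ^ (-(a + 1 - c / 2)) * (C * ((n + 1 : ℕ) : ℝ) ^ (a - c)) :=
          mul_le_mul_of_nonneg_left h2 (by positivity)
      _ = C * (((n + 1 : ℕ) : ℝ) ^ (-(a + 1 - c / 2)) * ((n + 1 : ℕ) : ℝ) ^ (a - c)) := by ring
      _ = C * ((n + 1 : ℕ) : ℝ) ^ (-(1 + c / 2)) := by
          rw [← Real.rpow_add hn]
          congr 2
          ring
  have hsum : Summable (fun n : ℕ => C * ((n + 1 : ℕ) : ℝ) ^ (-(1 + c / 2))) := by
    refine Summable.mul_left _ ?_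
    have := (Real.summable_nat_rpow (p := -(1 + c / 2))).2 (by linarith)
    exact (summable_nat_add_iff 1).2 this
  have h3 : ∫⁻ ω, ∑' n : ℕ, ENNReal.ofReal (((n + 1 : ℕ) : ℝ) ^ (-(a + 1 - c / 2)) * g (n + 1) ω) ∂P
      ≠ ⊤ := by
    rw [lintegral_tsum (fun n => ((hg (n + 1)).const_mul _).ennreal_ofReal.aemeasurable)]
    refine ne_top_of_le_ne_top ?_ (ENNReal.tsum_le_tsum h1)
    rw [← ENNReal.ofReal_tsum_of_nonneg (fun n => by positivity) hsum]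
    exact ENNReal.ofReal_ne_top
  have h4 := ae_lt_top (Measurable.ennreal_tsum fun n =>
    ((hg (n + 1)).const_mul (((n + 1 : ℕ) : ℝ) ^ (-(a + 1 - c / 2)))).ennreal_ofReal) h3
  filter_upwards [h4] with ω hω
  set K := (∑' n : ℕ, ENNReal.ofReal (((n + 1 : ℕ) : ℝ) ^ (-(a + 1 - c / 2)) * g (n + 1) ω)).toReal
    with hK
  refine ⟨K + 1, by positivity, fun X => ?_⟩
  have h5 : ∑ n ∈ range X, ((n + 1 : ℕ) : ℝ) ^ (-(a + 1 - c / 2)) * g (n + 1) ω ≤ K := by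
    have h6 : ENNReal.ofReal (∑ n ∈ range X, ((n + 1 : ℕ) : ℝ) ^ (-(a + 1 - c / 2)) * g (n + 1) ω) ≤
        ∑' n : ℕ, ENNReal.ofReal (((n + 1 : ℕ) : ℝ) ^ (-(a + 1 - c / 2)) * g (n + 1) ω) := by
      rw [ENNReal.ofReal_sum_of_nonneg (fun n _ => mul_nonneg (by positivity) (hg0 _ _))]
      exact ENNReal.sum_le_tsum _
    rw [hK]
    exact (ENNReal.ofReal_le_iff_le_toReal hω.ne).1 h6
  have h7 : ∑ n ∈ Icc 1 X, g n ω = ∑ n ∈ range X, g (n + 1) ω := by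
    rw [Finset.range_eq_Ico, Finset.sum_Ico_add' (fun n => g n ω) 0 X 1]
    rfl
  rw [h7]
  calc ∑ n ∈ range X, g (n + 1) ω
      ≤ ∑ n ∈ range X, (X : ℝ) ^ (a + 1 - c / 2) *
          (((n + 1 : ℕ) : ℝ) ^ (-(a + 1 - c / 2)) * g (n + 1) ω) := by
        refine Finset.sum_le_sum fun n hn => ?_
        rw [mem_range] at hn
        have hn0 : (0 : ℝ) < ((n + 1 : ℕ) : ℝ) := by positivity
        have h8 : ((n + 1 : ℕ) : ℝ) ^ (a + 1 - c / 2) ≤ (X : ℝ) ^ (a + 1 - c / 2) :=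
          Real.rpow_le_rpow hn0.le (by exact_mod_cast hn) ha
        have h9 : 1 ≤ (X : ℝ) ^ (a + 1 - c / 2) * ((n + 1 : ℕ) : ℝ) ^ (-(a + 1 - c / 2)) := by
          rw [Real.rpow_neg hn0.le, ← div_eq_mul_inv, one_le_div (by positivity)]
          exact h8
        rw [← mul_assoc]
        nlinarith [hg0 (n + 1) ω]
    _ = (X : ℝ) ^ (a + 1 - c / 2) *
          ∑ n ∈ range X, ((n + 1 : ℕ) : ℝ) ^ (-(a + 1 - c / 2)) * g (n + 1) ω := by
        rw [Finset.mul_sum]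
    _ ≤ (X : ℝ) ^ (a + 1 - c / 2) * (K + 1) := by
        refine mul_le_mul_of_nonneg_left (by linarith) (by positivity)
    _ = _ := by ring

end Pool.Agent.T2H28.EP
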