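import Pool.Agent.H510R2.Div

set_option autoImplicit false

open Finset

namespace Pool.Agent.T2H28.EP

/-- The vectors with entries in `[1, N]`. -/
def box (M N : ℕ) : Finset (Fin M → ℕ) := Fintype.piFinset (fun _ => Icc 1 N)

lemma mem_box {M N : ℕ} {u : Fin M → ℕ} : u ∈ box M N ↔ ∀ i, 1 ≤ u i ∧ u i ≤ N := by
  simp [box, Fintype.mem_piFinset, mem_Icc]

/-- The vectors in the box with product `n`. -/
def fib (M N n : ℕ) : Finset (Fin M → ℕ) := (box M N).filter (fun w => ∏ i, w i = n)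

/-- The box with side `c` in direction `i`. -/
def sbox (M N : ℕ) (i : Fin M) (c : ℕ) : Finset (Fin M → ℕ) :=
  Fintype.piFinset (fun l => Icc 1 (if l = i then c else N))

lemma mem_sbox {M N c : ℕ} {i : Fin M} {u : Fin M → ℕ} :
    u ∈ sbox M N i c ↔ ∀ l, 1 ≤ u l ∧ u l ≤ (if l = i then c else N) := by
  simp [sbox, Fintype.mem_piFinset, mem_Icc]

lemma card_sbox (M N : ℕ) (i : Fin M) (c : ℕ) : (sbox M N i c).card = c * N ^ (M - 1) := by
  unfold sbox
  rw [Fintype.card_piFinset]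
  simp only [Nat.card_Icc, Nat.add_sub_cancel]
  rw [← Finset.mul_prod_erase univ _ (mem_univ i), if_pos rfl]
  congr 1
  rw [Finset.prod_congr rfl (g := fun _ => N) (fun l hl => if_neg (Finset.ne_of_mem_erase hl)),
    Finset.prod_const, Finset.card_erase_of_mem (mem_univ i), Finset.card_univ, Fintype.card_fin]

lemma prod_pos {M N : ℕ} {u : Fin M → ℕ} (hu : u ∈ box M N) : 1 ≤ ∏ i, u i :=
  Nat.one_le_iff_ne_zero.2 (Finset.prod_ne_zero_iff.2 fun i _ => by
    have := (mem_box.1 hu i).1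
    omega)

lemma prod_le {M N : ℕ} {u : Fin M → ℕ} (hu : u ∈ box M N) : ∏ i, u i ≤ N ^ M := by
  calc ∏ i, u i ≤ ∏ _i : Fin M, N := Finset.prod_le_prod' fun i _ => (mem_box.1 hu i).2
    _ = N ^ M := by simp

lemma fib_card (M N n : ℕ) (hn : 1 ≤ n) : (fib M N n).card ≤ n.divisors.card ^ M := by
  have : fib M N n ⊆ Fintype.piFinset (fun _ => n.divisors) := by
    intro w hw
    unfold fib at hw
    rw [mem_filter] at hw
    rw [Fintype.mem_piFinset]
    intro i
    rw [Nat.mem_divisors]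
    refine ⟨?_, by omega⟩
    rw [← hw.2]
    exact Finset.dvd_prod_of_mem _ (mem_univ i)
  refine (card_le_card this).trans ?_
  rw [Fintype.card_piFinset]
  simp

/-- The divisor bound for the fibres. -/
lemma fib_bound (M : ℕ) (hM : 1 ≤ M) (ε : ℝ) (hε : 0 < ε) : ∃ C : ℝ, 1 ≤ C ∧ ∀ N : ℕ, 1 ≤ N →
    ∀ n : ℕ, 1 ≤ n → n ≤ N ^ M → ((fib M N n).card : ℝ) ≤ C * (N : ℝ) ^ ε := by
  have hM0 : (0 : ℝ) < M := by exact_mod_cast hM
  obtain ⟨C, hC0, hC⟩ := Pool.Agent.H510R2.divisor_bound (ε / (M * M)) (by positivity)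
  refine ⟨(max C 1) ^ M, one_le_pow₀ (le_max_right _ _), fun N hN n hn hnN => ?_⟩
  have h1 : ((fib M N n).card : ℝ) ≤ (n.divisors.card : ℝ) ^ M := by
    exact_mod_cast fib_card M N n hn
  have hN0 : (0 : ℝ) ≤ N := Nat.cast_nonneg N
  have h2 : (n : ℝ) ≤ (N : ℝ) ^ (M : ℝ) := by
    rw [Real.rpow_natCast]
    exact_mod_cast hnN
  have h3 : (n.divisors.card : ℝ) ≤ max C 1 * (N : ℝ) ^ (ε / M) := by
    refine (hC n hn).trans ?_
    refine mul_le_mul (le_max_left _ _) ?_ (by positivity) (by positivity)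
    calc (n : ℝ) ^ (ε / (M * M)) ≤ ((N : ℝ) ^ (M : ℝ)) ^ (ε / (M * M)) :=
          Real.rpow_le_rpow (Nat.cast_nonneg n) h2 (by positivity)
      _ = (N : ℝ) ^ (ε / M) := by
          rw [← Real.rpow_mul hN0]
          congr 1
          field_simp
  refine h1.trans ((pow_le_pow_left₀ (Nat.cast_nonneg _) h3 M).trans (le_of_eq ?_))
  rw [mul_pow, ← Real.rpow_natCast ((N : ℝ) ^ (ε / M)) M, ← Real.rpow_mul hN0]
  congr 2
  field_simp

lemma dvd_prod_gcd {ι : Type*} (s : Finset ι) (n : ℕ) (f : ι → ℕ) (h : n ∣ ∏ i ∈ s, f i) :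
    n ∣ ∏ i ∈ s, Nat.gcd n (f i) := by
  classical
  induction s using Finset.induction_on generalizing n with
  | empty => simpa using h
  | insert a s ha ih =>
    rw [Finset.prod_insert ha] at h ⊢
    have h1 : n ∣ Nat.gcd n (f a) * Nat.gcd n (∏ i ∈ s, f i) := Nat.dvd_gcd_mul_gcd_iff_dvd_mul.2 h
    refine h1.trans (mul_dvd_mul_left _ ?_)
    have h2 := ih (Nat.gcd n (∏ i ∈ s, f i)) (Nat.gcd_dvd_right _ _)
    refine h2.trans (Finset.prod_dvd_prod_of_dvd _ _ fun i _ => ?_)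
    exact Nat.gcd_dvd_gcd_of_dvd_left _ (Nat.gcd_dvd_left _ _)

/-- The pairs with a small entry. -/
def T1 (M N K : ℕ) (i : Fin M) : Finset (Σ _ : Fin M → ℕ, Fin M → ℕ) :=
  (sbox M N i (min K N)).sigma (fun u => fib M N (∏ l, u l))

/-- The pairs with two equal entries. -/
def T2 (M N : ℕ) (i i' : Fin M) : Finset (Σ _ : Fin M → ℕ, Fin M → ℕ) :=
  ((box M N).filter (fun u => u i = u i')).sigma (fun u => fib M N (∏ l, u l))

lemma card_T2 (M N D : ℕ) (i i' : Fin M) (hii : i ≠ i') (hN : 1 ≤ N)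
    (hD : ∀ n, 1 ≤ n → n ≤ N ^ M → (fib M N n).card ≤ D) :
    (T2 M N i i').card ≤ N ^ (M - 1) * D := by
  unfold T2
  rw [card_sigma]
  refine (sum_le_card_nsmul _ _ D fun u hu => ?_).trans ?_
  · rw [mem_filter] at hu
    exact hD _ (prod_pos hu.1) (prod_le hu.1)
  · rw [smul_eq_mul]
    refine Nat.mul_le_mul_right _ ?_
    have h1 : ((box M N).filter (fun u => u i = u i')).card ≤ (sbox M N i 1).card := by
      refine card_le_card_of_injOn (fun u => Function.update u i 1) (fun u hu => ?_) ?_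
      · rw [mem_coe, mem_filter] at hu
        rw [mem_coe, mem_sbox]
        intro l
        by_cases hl : l = i
        · subst hl
          simp
        · simp only [Function.update_of_ne hl, if_neg hl]
          exact mem_box.1 hu.1 l
      · intro u hu v hv huv
        rw [mem_coe, mem_filter] at hu hv
        have h2 : ∀ l, l ≠ i → u l = v l := by
          intro l hl
          have := congrFun huv l
          simpa [Function.update_of_ne hl] using this
        funext l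
        by_cases hl : l = i
        · subst hl
          rw [hu.2, hv.2]
          exact h2 i' (Ne.symm hii)
        · exact h2 l hl
    rw [card_sbox, one_mul] at h1
    exact h1

lemma card_T1 (M N K D : ℕ) (i : Fin M) (hD : ∀ n, 1 ≤ n → n ≤ N ^ M → (fib M N n).card ≤ D) :
    (T1 M N K i).card ≤ K * N ^ (M - 1) * D := by
  unfold T1
  rw [card_sigma]
  refine (sum_le_card_nsmul _ _ D fun u hu => ?_).trans ?_
  · have hb : u ∈ box M N := by
      rw [mem_box]
      intro l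
      have := mem_sbox.1 hu l
      refine ⟨this.1, this.2.trans ?_⟩
      split_ifs
      · exact min_le_right _ _
      · exact le_rfl
    exact hD _ (prod_pos hb) (prod_le hb)
  · rw [smul_eq_mul, card_sbox]
    exact Nat.mul_le_mul_right _ (Nat.mul_le_mul_right _ (min_le_left _ _))

open Classical in
/-- The codes of the pairs with a large common factor. -/
noncomputable def T3 (M N G : ℕ) (S : Finset ((Fin M → ℕ) × (Fin M → ℕ))) (i j : Fin M) :
    Finset (Σ _ : (Σ _ : Fin M → ℕ, Fin M → ℕ), ℕ) :=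
  (((sbox M N i (N / G)).sigma (fun u => fib M N (∏ l, u l))).filter
    (fun z => z.1 i ≠ z.2 j)).sigma
    (fun z => (range (N + 1)).filter (fun g =>
      (Function.update z.1 i (g * z.1 i), Function.update z.2 j (g * z.2 j)) ∈ S))

lemma card_T3 (M N G D d : ℕ) (hM : 1 ≤ M) (S : Finset ((Fin M → ℕ) × (Fin M → ℕ))) (i j : Fin M)
    (hD : ∀ n, 1 ≤ n → n ≤ N ^ M → (fib M N n).card ≤ D)
    (hd : ∀ a b : Fin M → ℕ, 1 ≤ a i → 1 ≤ b j → a i ≠ b j →
      ((range (N + 1)).filter (fun g =>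
        (Function.update a i (g * a i), Function.update b j (g * b j)) ∈ S)).card ≤ d) :
    (T3 M N G S i j).card ≤ (N / G) * N ^ (M - 1) * D * d := by
  classical
  unfold T3
  rw [card_sigma]
  refine (sum_le_card_nsmul _ _ d fun z hz => ?_).trans ?_
  · rw [mem_filter, mem_sigma] at hz
    refine hd z.1 z.2 (mem_sbox.1 hz.1.1 i).1 ?_ hz.2
    have h2 := hz.1.2
    unfold fib at h2
    rw [mem_filter] at h2
    exact (mem_box.1 h2.1 j).1
  · rw [smul_eq_mul]
    refine Nat.mul_le_mul_right _ ((card_filter_le _ _).trans ?_)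
    rw [card_sigma]
    refine (sum_le_card_nsmul _ _ D fun u hu => ?_).trans ?_
    · have hb : u ∈ box M N := by
        rw [mem_box]
        intro l
        have := mem_sbox.1 hu l
        refine ⟨this.1, this.2.trans ?_⟩
        split_ifs
        · exact Nat.div_le_self _ _
        · exact le_rfl
      exact hD _ (prod_pos hb) (prod_le hb)
    · rw [smul_eq_mul, card_sbox]

/-- Every pair is in one of the sets. -/
lemma cover (M N G : ℕ) (hM : 1 ≤ M) (hG : 1 ≤ G) (S : Finset ((Fin M → ℕ) × (Fin M → ℕ)))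
    (hS : ∀ z ∈ S, z.1 ∈ box M N ∧ z.2 ∈ box M N ∧ ∏ i, z.1 i = ∏ i, z.2 i ∧
      ¬ ∃ σ : Equiv.Perm (Fin M), z.2 = z.1 ∘ σ) (z : (Fin M → ℕ) × (Fin M → ℕ)) (hz : z ∈ S) :
    (∃ i, (⟨z.1, z.2⟩ : Σ _ : Fin M → ℕ, Fin M → ℕ) ∈ T1 M N (G ^ M) i) ∨
    (∃ i i', i ≠ i' ∧ (⟨z.1, z.2⟩ : Σ _ : Fin M → ℕ, Fin M → ℕ) ∈ T2 M N i i') ∨
    (∃ i j, ∃ t ∈ T3 M N G S i j, (Function.update t.1.1 i (t.2 * t.1.1 i),
      Function.update t.1.2 j (t.2 * t.1.2 j)) = z) := by
  classical
  obtain ⟨h1, h2, h3, h4⟩ := hS z hz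
  have hf : z.2 ∈ fib M N (∏ l, z.1 l) := by
    unfold fib
    rw [mem_filter]
    exact ⟨h2, h3.symm⟩
  by_contra hcon
  push Not at hcon
  obtain ⟨c1, c2, c3⟩ := hcon
  have hbig : ∀ i, G ^ M < z.1 i := by
    intro i
    by_contra hle
    rw [not_lt] at hle
    refine c1 i ?_
    unfold T1
    rw [mem_sigma]
    refine ⟨?_, hf⟩
    rw [mem_sbox]
    intro l
    have := mem_box.1 h1 l
    refine ⟨this.1, ?_⟩
    split_ifs with hl
    · subst hl
      exact le_min hle this.2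
    · exact this.2
  have hinj : Function.Injective z.1 := by
    intro i i' hii
    by_contra hne
    refine c2 i i' hne ?_
    unfold T2
    rw [mem_sigma, mem_filter]
    exact ⟨⟨h1, hii⟩, hf⟩
  have hmatch : ∀ i, ∃ j, z.1 i = z.2 j := by
    intro i
    by_contra hno
    push Not at hno
    have hdvd : z.1 i ∣ ∏ j, z.2 j := by
      rw [← h3]
      exact Finset.dvd_prod_of_mem _ (mem_univ i)
    have hdvd2 := dvd_prod_gcd univ (z.1 i) z.2 hdvd
    have hpos : 0 < z.1 i := (mem_box.1 h1 i).1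
    have hsmall : ∀ j, Nat.gcd (z.1 i) (z.2 j) < G := by
      intro j
      by_contra hge
      rw [not_lt] at hge
      set g := Nat.gcd (z.1 i) (z.2 j) with hg
      have hg0 : 0 < g := Nat.gcd_pos_of_pos_left _ hpos
      obtain ⟨b, hb⟩ : g ∣ z.1 i := Nat.gcd_dvd_left _ _
      obtain ⟨c, hc⟩ : g ∣ z.2 j := Nat.gcd_dvd_right _ _
      have hu := mem_box.1 h1 i
      have hw := mem_box.1 h2 j
      have hb1 : 1 ≤ b := by
        rcases Nat.eq_zero_or_pos b with h | h
        · rw [h, mul_zero] at hb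
          omega
        · exact h
      have hc1 : 1 ≤ c := by
        rcases Nat.eq_zero_or_pos c with h | h
        · rw [h, mul_zero] at hc
          omega
        · exact h
      have hbc : b ≠ c := by
        intro h
        exact hno j (by rw [hb, hc, h])
      have hback : (Function.update (Function.update z.1 i b) i
          (g * (Function.update z.1 i b) i), Function.update (Function.update z.2 j c) j
          (g * (Function.update z.2 j c) j)) = z := by
        rw [Function.update_idem, Function.update_idem, Function.update_self,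
          Function.update_self, ← hb, ← hc, Function.update_eq_self, Function.update_eq_self]
      refine c3 i j ⟨⟨Function.update z.1 i b, Function.update z.2 j c⟩, g⟩ ?_ hback
      unfold T3
      rw [mem_sigma, mem_filter, mem_sigma, mem_filter, mem_sbox]
      refine ⟨⟨⟨?_, ?_⟩, ?_⟩, ?_, ?_⟩
      · intro l
        by_cases hl : l = i
        · subst hl
          show 1 ≤ Function.update z.1 l b l ∧ Function.update z.1 l b l ≤ _
          rw [Function.update_self, if_pos rfl]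
          refine ⟨hb1, ?_⟩
          rw [Nat.le_div_iff_mul_le (by omega)]
          calc b * G ≤ b * g := Nat.mul_le_mul_left _ hge
            _ = z.1 l := by rw [hb]; ring
            _ ≤ N := hu.2
        · show 1 ≤ Function.update z.1 i b l ∧ Function.update z.1 i b l ≤ _
          rw [Function.update_of_ne hl, if_neg hl]
          exact mem_box.1 h1 l
      · unfold fib
        rw [mem_filter]
        constructor
        · rw [mem_box]
          intro l
          by_cases hl : l = j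
          · subst hl
            show 1 ≤ Function.update z.2 l c l ∧ Function.update z.2 l c l ≤ N
            rw [Function.update_self]
            refine ⟨hc1, ?_⟩
            calc c ≤ g * c := Nat.le_mul_of_pos_left _ hg0
              _ = z.2 l := hc.symm
              _ ≤ N := hw.2
          · show 1 ≤ Function.update z.2 j c l ∧ Function.update z.2 j c l ≤ N
            rw [Function.update_of_ne hl]
            exact mem_box.1 h2 l
        · show ∏ l, Function.update z.2 j c l = ∏ l, Function.update z.1 i b l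
          rw [Finset.prod_update_of_mem (mem_univ j), Finset.prod_update_of_mem (mem_univ i)]
          have e1 : z.1 i * ∏ x ∈ univ \ {i}, z.1 x = ∏ x, z.1 x := by
            rw [← Finset.prod_update_of_mem (mem_univ i) z.1 (z.1 i), Function.update_eq_self]
          have e2 : z.2 j * ∏ x ∈ univ \ {j}, z.2 x = ∏ x, z.2 x := by
            rw [← Finset.prod_update_of_mem (mem_univ j) z.2 (z.2 j), Function.update_eq_self]
          have e3 : g * (c * ∏ x ∈ univ \ {j}, z.2 x) = g * (b * ∏ x ∈ univ \ {i}, z.1 x) := by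
            rw [← mul_assoc, ← mul_assoc, ← hb, ← hc, e1, e2, h3]
          exact Nat.eq_of_mul_eq_mul_left hg0 e3
      · show Function.update z.1 i b i ≠ Function.update z.2 j c j
        rw [Function.update_self, Function.update_self]
        exact hbc
      · show g ∈ range (N + 1)
        rw [mem_range]
        have h7 : g ≤ z.1 i := Nat.le_of_dvd hpos (Nat.gcd_dvd_left _ _)
        have h8 := hu.2
        omega
      · rw [hback]
        exact hz
    have hle : z.1 i ≤ ∏ j, Nat.gcd (z.1 i) (z.2 j) := by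
      refine Nat.le_of_dvd (Nat.pos_of_ne_zero (Finset.prod_ne_zero_iff.2 fun j _ => ?_)) hdvd2
      exact (Nat.gcd_pos_of_pos_left _ hpos).ne'
    have hle2 : ∏ j, Nat.gcd (z.1 i) (z.2 j) ≤ G ^ M := by
      calc ∏ j, Nat.gcd (z.1 i) (z.2 j) ≤ ∏ _j : Fin M, G :=
            Finset.prod_le_prod' fun j _ => (hsmall j).le
        _ = G ^ M := by simp
    have := hbig i
    omega
  choose τ hτ using hmatch
  have hτi : Function.Injective τ := by
    intro i i' hii
    apply hinj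
    rw [hτ i, hτ i', hii]
  have hτb : Function.Bijective τ := Finite.injective_iff_bijective.1 hτi
  refine h4 ⟨(Equiv.ofBijective τ hτb).symm, ?_⟩
  funext j
  show z.2 j = z.1 ((Equiv.ofBijective τ hτb).symm j)
  rw [hτ]
  exact congrArg z.2 ((Equiv.ofBijective τ hτb).apply_symm_apply j).symm

/-- The bound for the number of pairs. -/
lemma card_le (M N G D d : ℕ) (hM : 1 ≤ M) (hN : 1 ≤ N) (hG : 1 ≤ G)
    (S : Finset ((Fin M → ℕ) × (Fin M → ℕ)))
    (hS : ∀ z ∈ S, z.1 ∈ box M N ∧ z.2 ∈ box M N ∧ ∏ i, z.1 i = ∏ i, z.2 i ∧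
      ¬ ∃ σ : Equiv.Perm (Fin M), z.2 = z.1 ∘ σ)
    (hD : ∀ n, 1 ≤ n → n ≤ N ^ M → (fib M N n).card ≤ D)
    (hd : ∀ (i j : Fin M) (a b : Fin M → ℕ), 1 ≤ a i → 1 ≤ b j → a i ≠ b j →
      ((range (N + 1)).filter (fun g =>
        (Function.update a i (g * a i), Function.update b j (g * b j)) ∈ S)).card ≤ d) :
    S.card ≤ M * (G ^ M * N ^ (M - 1) * D) + M * M * (N ^ (M - 1) * D) +
      M * M * ((N / G) * N ^ (M - 1) * D * d) := by
  classical
  let pr : (Σ _ : Fin M → ℕ, Fin M → ℕ) → (Fin M → ℕ) × (Fin M → ℕ) := fun t => (t.1, t.2)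
  let q : Fin M → Fin M → (Σ _ : (Σ _ : Fin M → ℕ, Fin M → ℕ), ℕ) → (Fin M → ℕ) × (Fin M → ℕ) :=
    fun i j t => (Function.update t.1.1 i (t.2 * t.1.1 i), Function.update t.1.2 j (t.2 * t.1.2 j))
  have hsub : S ⊆ (univ.biUnion (fun i => (T1 M N (G ^ M) i).image pr)) ∪
      ((univ.filter (fun ii : Fin M × Fin M => ii.1 ≠ ii.2)).biUnion
        (fun ii => (T2 M N ii.1 ii.2).image pr)) ∪
      ((univ : Finset (Fin M × Fin M)).biUnion
        (fun ij => (T3 M N G S ij.1 ij.2).image (q ij.1 ij.2))) := by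
    intro z hz
    rw [mem_union, mem_union, mem_biUnion, mem_biUnion, mem_biUnion]
    rcases cover M N G hM hG S hS z hz with ⟨i, h⟩ | ⟨i, i', hii, h⟩ | ⟨i, j, t, ht, h⟩
    · exact Or.inl (Or.inl ⟨i, mem_univ _, mem_image.2 ⟨_, h, rfl⟩⟩)
    · exact Or.inl (Or.inr ⟨(i, i'), mem_filter.2 ⟨mem_univ _, hii⟩, mem_image.2 ⟨_, h, rfl⟩⟩)
    · exact Or.inr ⟨(i, j), mem_univ _, mem_image.2 ⟨t, ht, h⟩⟩
  refine (card_le_card hsub).trans ((card_union_le _ _).trans ?_)
  refine Nat.add_le_add ((card_union_le _ _).trans (Nat.add_le_add ?_ ?_)) ?_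
  · refine card_biUnion_le.trans ?_
    refine (sum_le_card_nsmul _ _ (G ^ M * N ^ (M - 1) * D) fun i _ => ?_).trans ?_
    · exact card_image_le.trans (card_T1 M N (G ^ M) D i hD)
    · rw [smul_eq_mul, card_univ, Fintype.card_fin]
  · refine card_biUnion_le.trans ?_
    refine (sum_le_card_nsmul _ _ (N ^ (M - 1) * D) fun ii hii => ?_).trans ?_
    · exact card_image_le.trans (card_T2 M N D ii.1 ii.2 (mem_filter.1 hii).2 hN hD)
    · rw [smul_eq_mul]
      refine Nat.mul_le_mul_right _ ((card_filter_le _ _).trans ?_)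
      rw [card_univ, Fintype.card_prod, Fintype.card_fin]
  · refine card_biUnion_le.trans ?_
    refine (sum_le_card_nsmul _ _ ((N / G) * N ^ (M - 1) * D * d) fun ij _ => ?_).trans ?_
    · exact card_image_le.trans (card_T3 M N G D d hM S ij.1 ij.2 hD (hd ij.1 ij.2))
    · rw [smul_eq_mul, card_univ, Fintype.card_prod, Fintype.card_fin]

/-- The number of pairs is at most `C N ^ (M - c)`. -/
theorem main (M d : ℕ) (hM : 1 ≤ M) : ∃ C : ℝ, 0 < C ∧ ∀ N : ℕ, 1 ≤ N →
    ∀ S : Finset ((Fin M → ℕ) × (Fin M → ℕ)),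
    (∀ z ∈ S, z.1 ∈ box M N ∧ z.2 ∈ box M N ∧ ∏ i, z.1 i = ∏ i, z.2 i ∧
      ¬ ∃ σ : Equiv.Perm (Fin M), z.2 = z.1 ∘ σ) →
    (∀ (i j : Fin M) (a b : Fin M → ℕ), 1 ≤ a i → 1 ≤ b j → a i ≠ b j →
      ((range (N + 1)).filter (fun g =>
        (Function.update a i (g * a i), Function.update b j (g * b j)) ∈ S)).card ≤ d) →
    (S.card : ℝ) ≤ C * (N : ℝ) ^ ((M : ℝ) - 1 / (2 * (M + 1))) := by
  have hM0 : (0 : ℝ) < M := by exact_mod_cast hM
  set c : ℝ := 1 / (M + 1) with hc
  have hc0 : 0 < c := by positivity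
  have hcM : c * M = 1 - c := by
    rw [hc]; field_simp; ring
  obtain ⟨C₀, hC₀, hC⟩ := fib_bound M hM (c / 2) (by positivity)
  refine ⟨2 * C₀ * (M * 2 ^ M + M * M + M * M * d), by positivity, fun N hN S hS hd => ?_⟩
  have hN1 : (1 : ℝ) ≤ N := by exact_mod_cast hN
  have hN0 : (0 : ℝ) < N := by linarith
  set G : ℕ := ⌈(N : ℝ) ^ c⌉₊ with hG
  have hNc : 1 ≤ (N : ℝ) ^ c := Real.one_le_rpow hN1 hc0.le
  have hG1 : (N : ℝ) ^ c ≤ G := Nat.le_ceil _
  have hG2 : (G : ℝ) ≤ 2 * (N : ℝ) ^ c := by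
    have := Nat.ceil_lt_add_one (by linarith : (0 : ℝ) ≤ (N : ℝ) ^ c)
    linarith
  have hG3 : 1 ≤ G := by
    have : (1 : ℝ) ≤ G := hNc.trans hG1
    exact_mod_cast this
  set D : ℕ := ⌊C₀ * (N : ℝ) ^ (c / 2)⌋₊ with hD
  have hNe : 0 ≤ (N : ℝ) ^ (c / 2) := by positivity
  have hD1 : (D : ℝ) ≤ C₀ * (N : ℝ) ^ (c / 2) := Nat.floor_le (by positivity)
  have hD2 : ∀ n, 1 ≤ n → n ≤ N ^ M → (fib M N n).card ≤ D := by
    intro n h1 h2
    exact Nat.le_floor (hC N hN n h1 h2)
  have key := card_le M N G D d hM hN hG3 S hS hD2 hd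
  have keyR : (S.card : ℝ) ≤ M * ((G : ℝ) ^ M * (N : ℝ) ^ (M - 1) * D) +
      M * M * ((N : ℝ) ^ (M - 1) * D) + M * M * (((N / G : ℕ) : ℝ) * (N : ℝ) ^ (M - 1) * D * d) := by
    exact_mod_cast key
  set P : ℝ := (N : ℝ) ^ (1 - c) with hP
  have hP1 : 1 ≤ P := Real.one_le_rpow hN1 (by
    rw [hc, sub_nonneg, div_le_one (by positivity)]
    linarith)
  have hGM : (G : ℝ) ^ M ≤ 2 ^ M * P := by
    calc (G : ℝ) ^ M ≤ (2 * (N : ℝ) ^ c) ^ M := pow_le_pow_left₀ (Nat.cast_nonneg _) hG2 M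
      _ = 2 ^ M * P := by
        rw [mul_pow, ← Real.rpow_natCast ((N : ℝ) ^ c) M, ← Real.rpow_mul hN0.le, hcM]
  have hNG : ((N / G : ℕ) : ℝ) ≤ P := by
    calc ((N / G : ℕ) : ℝ) ≤ (N : ℝ) / G := Nat.cast_div_le
      _ ≤ (N : ℝ) / (N : ℝ) ^ c := div_le_div_of_nonneg_left hN0.le (by positivity) hG1
      _ = P := by rw [hP, Real.rpow_sub hN0, Real.rpow_one]
  set Q : ℝ := (N : ℝ) ^ (M - 1) * D with hQ
  have hQ0 : 0 ≤ Q := by positivity
  have hbound : (S.card : ℝ) ≤ (M * 2 ^ M + M * M + M * M * d) * (P * Q) := by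
    have a1 : (M : ℝ) * ((G : ℝ) ^ M * (N : ℝ) ^ (M - 1) * D) ≤ M * 2 ^ M * (P * Q) := by
      have : (G : ℝ) ^ M * (N : ℝ) ^ (M - 1) * D ≤ 2 ^ M * P * Q := by
        rw [mul_assoc]
        exact mul_le_mul_of_nonneg_right hGM hQ0
      nlinarith
    have a2 : (M : ℝ) * M * ((N : ℝ) ^ (M - 1) * D) ≤ M * M * (P * Q) := by
      refine mul_le_mul_of_nonneg_left ?_ (by positivity)
      nlinarith
    have a3 : (M : ℝ) * M * (((N / G : ℕ) : ℝ) * (N : ℝ) ^ (M - 1) * D * d) ≤ M * M * d * (P * Q) := by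
      have h5 : ((N / G : ℕ) : ℝ) * (N : ℝ) ^ (M - 1) * D * d ≤ P * Q * d := by
        refine mul_le_mul_of_nonneg_right ?_ (Nat.cast_nonneg d)
        rw [mul_assoc]
        exact mul_le_mul_of_nonneg_right hNG hQ0
      calc (M : ℝ) * M * (((N / G : ℕ) : ℝ) * (N : ℝ) ^ (M - 1) * D * d)
          ≤ M * M * (P * Q * d) := mul_le_mul_of_nonneg_left h5 (by positivity)
        _ = _ := by ring
    linarith
  have hPQ : P * Q ≤ C₀ * (N : ℝ) ^ ((M : ℝ) - 1 / (2 * (M + 1))) := by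
    have e1 : (N : ℝ) ^ (M - 1) = (N : ℝ) ^ ((M : ℝ) - 1) := by
      rw [← Real.rpow_natCast, Nat.cast_sub hM, Nat.cast_one]
    have e2 : P * ((N : ℝ) ^ (M - 1) * (N : ℝ) ^ (c / 2))
        = (N : ℝ) ^ ((M : ℝ) - 1 / (2 * (M + 1))) := by
      rw [e1, hP, ← Real.rpow_add hN0, ← Real.rpow_add hN0]
      congr 1
      rw [hc]
      field_simp
      ring
    calc P * Q ≤ P * ((N : ℝ) ^ (M - 1) * (C₀ * (N : ℝ) ^ (c / 2))) := by
          refine mul_le_mul_of_nonneg_left ?_ (by linarith)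
          exact mul_le_mul_of_nonneg_left hD1 (by positivity)
      _ = C₀ * (P * ((N : ℝ) ^ (M - 1) * (N : ℝ) ^ (c / 2))) := by ring
      _ = _ := by rw [e2]
  refine hbound.trans ?_
  have h0 : (0 : ℝ) ≤ M * 2 ^ M + M * M + M * M * d := by positivity
  have h1 : (0 : ℝ) ≤ (N : ℝ) ^ ((M : ℝ) - 1 / (2 * (M + 1))) := by positivity
  calc (M * 2 ^ M + M * M + M * M * (d : ℝ)) * (P * Q)
      ≤ (M * 2 ^ M + M * M + M * M * d) * (C₀ * (N : ℝ) ^ ((M : ℝ) - 1 / (2 * (M + 1)))) :=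
        mul_le_mul_of_nonneg_left hPQ h0
    _ ≤ _ := by
        have : (0 : ℝ) ≤ C₀ * (M * 2 ^ M + M * M + M * M * d) *
          (N : ℝ) ^ ((M : ℝ) - 1 / (2 * (M + 1))) := by positivity
        nlinarith

end Pool.Agent.T2H28.EP
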