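import Pool.Agent.T2H28.EP.Core

set_option autoImplicit false

open Finset Polynomial

namespace Pool.Agent.T2H28.EP

/-- The weights for which the equation is not degenerate. -/
def Ok (α β : ℤ) : Prop := (α = 1 ∧ β = 1) ∨ (α = 1 ∧ β = 0) ∨ (α = 0 ∧ β = 1)

lemma roots_le (P : ℤ[X]) (hP : 0 < P.natDegree) (α β : ℤ) (hαβ : Ok α β) (a b : ℕ) (ha : 1 ≤ a)
    (hb : 1 ≤ b) (hab : a ≠ b) (e : ℤ) (N : ℕ) :
    ((range (N + 1)).filter (fun g : ℕ => α * P.eval ((g * a : ℕ) : ℤ) -
      β * P.eval ((g * b : ℕ) : ℤ) = e)).card ≤ P.natDegree := by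
  classical
  set R : ℤ[X] := C α * P.comp (C (a : ℤ) * X) - C β * P.comp (C (b : ℤ) * X) - C e with hR
  have hlead : P.coeff P.natDegree ≠ 0 := by
    rw [Polynomial.coeff_natDegree]
    exact Polynomial.leadingCoeff_ne_zero.2 (fun h => by rw [h] at hP; simp at hP)
  have hcoef : R.coeff P.natDegree =
      P.coeff P.natDegree * (α * (a : ℤ) ^ P.natDegree - β * (b : ℤ) ^ P.natDegree) := by
    rw [hR, Polynomial.coeff_sub, Polynomial.coeff_sub, Polynomial.coeff_C_mul,
      Polynomial.coeff_C_mul, Polynomial.comp_C_mul_X_coeff, Polynomial.comp_C_mul_X_coeff,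
      Polynomial.coeff_C, if_neg hP.ne']
    ring
  have hne : α * (a : ℤ) ^ P.natDegree - β * (b : ℤ) ^ P.natDegree ≠ 0 := by
    have ha' : (a : ℤ) ^ P.natDegree ≠ 0 := by positivity
    have hb' : (b : ℤ) ^ P.natDegree ≠ 0 := by positivity
    rcases hαβ with ⟨h1, h2⟩ | ⟨h1, h2⟩ | ⟨h1, h2⟩
    · rw [h1, h2, one_mul, one_mul, sub_ne_zero]
      intro h
      have h3 : a ^ P.natDegree = b ^ P.natDegree := by exact_mod_cast h
      exact hab (Nat.pow_left_injective hP.ne' h3)
    · rw [h1, h2, one_mul, zero_mul, sub_zero]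
      exact ha'
    · rw [h1, h2, one_mul, zero_mul, zero_sub]
      exact neg_ne_zero.2 hb'
  have hR0 : R ≠ 0 := by
    intro h
    rw [h, Polynomial.coeff_zero] at hcoef
    exact mul_ne_zero hlead hne hcoef.symm
  have hdeg : R.natDegree ≤ P.natDegree := by
    rw [hR]
    refine (Polynomial.natDegree_sub_le _ _).trans (max_le ?_ (by simp))
    refine (Polynomial.natDegree_sub_le _ _).trans (max_le ?_ ?_)
    · refine (Polynomial.natDegree_C_mul_le _ _).trans ?_
      refine Polynomial.natDegree_comp_le.trans ?_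
      calc P.natDegree * (C (a : ℤ) * X).natDegree ≤ P.natDegree * 1 :=
            Nat.mul_le_mul_left _ ((Polynomial.natDegree_C_mul_le _ _).trans (by simp))
        _ = P.natDegree := mul_one _
    · refine (Polynomial.natDegree_C_mul_le _ _).trans ?_
      refine Polynomial.natDegree_comp_le.trans ?_
      calc P.natDegree * (C (b : ℤ) * X).natDegree ≤ P.natDegree * 1 :=
            Nat.mul_le_mul_left _ ((Polynomial.natDegree_C_mul_le _ _).trans (by simp))
        _ = P.natDegree := mul_one _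
  calc _ ≤ R.roots.toFinset.card := by
        refine card_le_card_of_injOn (fun g : ℕ => (g : ℤ)) (fun g hg => ?_)
          (fun g _ g' _ h => Int.natCast_inj.1 h)
        rw [mem_coe, mem_filter] at hg
        rw [mem_coe, Multiset.mem_toFinset, Polynomial.mem_roots hR0, Polynomial.IsRoot.def, hR]
        simp only [Polynomial.eval_sub, Polynomial.eval_mul, Polynomial.eval_C,
          Polynomial.eval_comp, Polynomial.eval_X]
        have h2 := hg.2
        push_cast at h2
        rw [mul_comm (a : ℤ), mul_comm (b : ℤ)]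
        linarith
    _ ≤ Multiset.card R.roots := Multiset.toFinset_card_le _
    _ ≤ R.natDegree := Polynomial.card_roots' _
    _ ≤ _ := hdeg

/-- The hypothesis of the main lemma for one weighted polynomial equation. -/
lemma hd_poly (M N : ℕ) (S : Finset ((Fin M → ℕ) × (Fin M → ℕ))) (P : ℤ[X]) (hP : 0 < P.natDegree)
    (α β : Fin M → ℤ)
    (hS : ∀ z ∈ S, ∑ l, α l * P.eval (z.1 l : ℤ) = ∑ l, β l * P.eval (z.2 l : ℤ)) (i j : Fin M)
    (hij : Ok (α i) (β j)) (a b : Fin M → ℕ) (ha : 1 ≤ a i) (hb : 1 ≤ b j) (hab : a i ≠ b j) :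
    ((range (N + 1)).filter (fun g =>
      (Function.update a i (g * a i), Function.update b j (g * b j)) ∈ S)).card ≤ P.natDegree := by
  classical
  refine (card_le_card ?_).trans (roots_le P hP (α i) (β j) hij (a i) (b j) ha hb hab
    (∑ l ∈ univ.erase j, β l * P.eval (b l : ℤ) - ∑ l ∈ univ.erase i, α l * P.eval (a l : ℤ)) N)
  intro g hg
  rw [mem_filter] at hg ⊢
  refine ⟨hg.1, ?_⟩
  have h := hS _ hg.2
  simp only at h
  rw [← Finset.add_sum_erase univ _ (mem_univ i), ← Finset.add_sum_erase univ _ (mem_univ j)] at h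
  have e1 : ∑ l ∈ univ.erase i, α l * P.eval (Function.update a i (g * a i) l : ℤ)
      = ∑ l ∈ univ.erase i, α l * P.eval (a l : ℤ) := by
    refine Finset.sum_congr rfl fun l hl => ?_
    rw [Function.update_of_ne (Finset.ne_of_mem_erase hl)]
  have e2 : ∑ l ∈ univ.erase j, β l * P.eval (Function.update b j (g * b j) l : ℤ)
      = ∑ l ∈ univ.erase j, β l * P.eval (b l : ℤ) := by
    refine Finset.sum_congr rfl fun l hl => ?_
    rw [Function.update_of_ne (Finset.ne_of_mem_erase hl)]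
  rw [e1, e2, Function.update_self, Function.update_self] at h
  linarith

/-- The solutions of the equation `∑ P(x_i) = ∑ P(y_i)` with equal products which are not permutations. -/
noncomputable def Non (s N : ℕ) (P : ℤ[X]) : Finset ((Fin s → ℕ) × (Fin s → ℕ)) := by
  classical
  exact (box s N ×ˢ box s N).filter (fun z => ∏ i, z.1 i = ∏ i, z.2 i ∧
    ∑ i, P.eval (z.1 i : ℤ) = ∑ i, P.eval (z.2 i : ℤ) ∧ ¬ ∃ σ : Equiv.Perm (Fin s), z.2 = z.1 ∘ σ)

theorem partOne (s d : ℕ) (hs : 1 ≤ s) : ∃ C : ℝ, 0 < C ∧ ∀ N : ℕ, 1 ≤ N → ∀ P : ℤ[X],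
    0 < P.natDegree → P.natDegree ≤ d →
    ((Non s N P).card : ℝ) ≤ C * (N : ℝ) ^ ((s : ℝ) - 1 / (2 * (s + 1))) := by
  classical
  obtain ⟨C, hC0, hC⟩ := main s d hs
  refine ⟨C, hC0, fun N hN P hP hPd => hC N hN _ (fun z hz => ?_) (fun i j a b ha hb hab => ?_)⟩
  · unfold Non at hz
    rw [mem_filter, mem_product] at hz
    exact ⟨hz.1.1, hz.1.2, hz.2.1, hz.2.2.2⟩
  · refine (hd_poly s N (Non s N P) P hP (fun _ => 1) (fun _ => 1) (fun z hz => ?_) i j
      (Or.inl ⟨rfl, rfl⟩) a b ha hb hab).trans hPd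
    unfold Non at hz
    rw [mem_filter] at hz
    simpa using hz.2.2.1

end Pool.Agent.T2H28.EP
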