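import Pool.Agent.T2H28.EP.Poly

set_option autoImplicit false

open Finset Polynomial

namespace Pool.Agent.T2H28.EP

/-- The nondiagonal solutions of `∑ P(x_i) = ∑ P(y_i)`, without the condition on the products. -/
noncomputable def NonV (s N : ℕ) (P : ℤ[X]) : Finset ((Fin s → ℕ) × (Fin s → ℕ)) := by
  classical
  exact (box s N ×ˢ box s N).filter (fun z =>
    ∑ i, P.eval (z.1 i : ℤ) = ∑ i, P.eval (z.2 i : ℤ) ∧ ¬ ∃ σ : Equiv.Perm (Fin s), z.2 = z.1 ∘ σ)

/-- The pairs of nondiagonal solutions with equal cross products. -/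
noncomputable def Quad (s N : ℕ) (P : ℤ[X]) :
    Finset (((Fin s → ℕ) × (Fin s → ℕ)) × ((Fin s → ℕ) × (Fin s → ℕ))) := by
  classical
  exact (NonV s N P ×ˢ NonV s N P).filter (fun t =>
    (∏ i, t.1.1 i) * ∏ i, t.2.2 i = (∏ i, t.1.2 i) * ∏ i, t.2.1 i)

/-- The code of a pair of solutions. -/
def code (s : ℕ) (t : ((Fin s → ℕ) × (Fin s → ℕ)) × ((Fin s → ℕ) × (Fin s → ℕ))) :
    (Fin (s + s) → ℕ) × (Fin (s + s) → ℕ) :=
  (Fin.append t.1.1 t.2.2, Fin.append t.1.2 t.2.1)

lemma append_inj {s : ℕ} {a b c d : Fin s → ℕ} (h : Fin.append a b = Fin.append c d) :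
    a = c ∧ b = d := by
  constructor
  · funext i
    have := congrFun h (Fin.castAdd s i)
    rwa [Fin.append_left, Fin.append_left] at this
  · funext i
    have := congrFun h (Fin.natAdd s i)
    rwa [Fin.append_right, Fin.append_right] at this

lemma code_inj (s : ℕ) : Function.Injective (code s) := by
  intro t t' h
  unfold code at h
  rw [Prod.mk.injEq] at h
  obtain ⟨h1, h2⟩ := append_inj h.1
  obtain ⟨h3, h4⟩ := append_inj h.2
  exact Prod.ext (Prod.ext h1 h3) (Prod.ext h4 h2)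

lemma mem_NonV {s N : ℕ} {P : ℤ[X]} {z : (Fin s → ℕ) × (Fin s → ℕ)} : z ∈ NonV s N P ↔
    z.1 ∈ box s N ∧ z.2 ∈ box s N ∧ ∑ i, P.eval (z.1 i : ℤ) = ∑ i, P.eval (z.2 i : ℤ) ∧
      ¬ ∃ σ : Equiv.Perm (Fin s), z.2 = z.1 ∘ σ := by
  unfold NonV
  rw [mem_filter, mem_product, and_assoc]

lemma mem_Quad {s N : ℕ} {P : ℤ[X]}
    {t : ((Fin s → ℕ) × (Fin s → ℕ)) × ((Fin s → ℕ) × (Fin s → ℕ))} : t ∈ Quad s N P ↔
    t.1 ∈ NonV s N P ∧ t.2 ∈ NonV s N P ∧
      (∏ i, t.1.1 i) * ∏ i, t.2.2 i = (∏ i, t.1.2 i) * ∏ i, t.2.1 i := by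
  unfold Quad
  rw [mem_filter, mem_product, and_assoc]

lemma box_append {s N : ℕ} {a b : Fin s → ℕ} (ha : a ∈ box s N) (hb : b ∈ box s N) :
    Fin.append a b ∈ box (s + s) N := by
  rw [mem_box] at *
  intro l
  refine Fin.addCases (fun i => ?_) (fun i => ?_) l
  · rw [Fin.append_left]
    exact ha i
  · rw [Fin.append_right]
    exact hb i

lemma prod_append {s : ℕ} (a b : Fin s → ℕ) :
    ∏ l, Fin.append a b l = (∏ i, a i) * ∏ i, b i := by
  rw [Fin.prod_univ_add]
  simp only [Fin.append_left, Fin.append_right]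

/-- The weights of the first equation. -/
def w1 (s : ℕ) : Fin (s + s) → ℤ := Fin.append (fun _ : Fin s => (1 : ℤ)) (fun _ => 0)

/-- The weights of the second equation. -/
def w2 (s : ℕ) : Fin (s + s) → ℤ := Fin.append (fun _ : Fin s => (0 : ℤ)) (fun _ => 1)

lemma sum_w1 {s : ℕ} (P : ℤ[X]) (a b : Fin s → ℕ) :
    ∑ l, w1 s l * P.eval ((Fin.append a b l : ℕ) : ℤ) = ∑ i, P.eval (a i : ℤ) := by
  rw [Fin.sum_univ_add]
  simp only [w1, Fin.append_left, Fin.append_right, one_mul, zero_mul, Finset.sum_const_zero,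
    add_zero]

lemma sum_w2 {s : ℕ} (P : ℤ[X]) (a b : Fin s → ℕ) :
    ∑ l, w2 s l * P.eval ((Fin.append a b l : ℕ) : ℤ) = ∑ i, P.eval (b i : ℤ) := by
  rw [Fin.sum_univ_add]
  simp only [w2, Fin.append_left, Fin.append_right, one_mul, zero_mul, Finset.sum_const_zero,
    zero_add]

lemma ok_or (s : ℕ) (i j : Fin (s + s)) : Ok (w1 s i) (w1 s j) ∨ Ok (w2 s i) (w2 s j) := by
  refine Fin.addCases (fun i' => ?_) (fun i' => ?_) i <;>
    refine Fin.addCases (fun j' => ?_) (fun j' => ?_) j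
  · left
    unfold Ok w1
    rw [Fin.append_left, Fin.append_left]
    exact Or.inl ⟨rfl, rfl⟩
  · left
    unfold Ok w1
    rw [Fin.append_left, Fin.append_right]
    exact Or.inr (Or.inl ⟨rfl, rfl⟩)
  · left
    unfold Ok w1
    rw [Fin.append_left, Fin.append_right]
    exact Or.inr (Or.inr ⟨rfl, rfl⟩)
  · right
    unfold Ok w2
    rw [Fin.append_right, Fin.append_right]
    exact Or.inl ⟨rfl, rfl⟩

/-- The codes which are not permutations. -/
lemma part_np (s d : ℕ) (hs : 1 ≤ s) : ∃ C : ℝ, 0 < C ∧ ∀ N : ℕ, 1 ≤ N → ∀ P : ℤ[X],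
    0 < P.natDegree → P.natDegree ≤ d →
    ((((Quad s N P).image (code s)).filter
      (fun z => ¬ ∃ σ : Equiv.Perm (Fin (s + s)), z.2 = z.1 ∘ σ)).card : ℝ) ≤
      C * (N : ℝ) ^ (((s + s : ℕ) : ℝ) - 1 / (2 * (((s + s : ℕ) : ℝ) + 1))) := by
  classical
  obtain ⟨C, hC0, hC⟩ := main (s + s) d (by omega)
  refine ⟨C, hC0, fun N hN P hP hPd => hC N hN _ (fun z hz => ?_) (fun i j a b ha hb hab => ?_)⟩
  · rw [mem_filter, mem_image] at hz
    obtain ⟨⟨t, ht, rfl⟩, hz2⟩ := hz
    rw [mem_Quad, mem_NonV, mem_NonV] at ht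
    refine ⟨box_append ht.1.1 ht.2.1.2.1, box_append ht.1.2.1 ht.2.1.1, ?_, hz2⟩
    unfold code
    rw [prod_append, prod_append]
    exact ht.2.2
  · rcases ok_or s i j with h | h
    · refine (hd_poly (s + s) N _ P hP (w1 s) (w1 s) (fun z hz => ?_) i j h a b ha hb hab).trans hPd
      rw [mem_filter, mem_image] at hz
      obtain ⟨⟨t, ht, rfl⟩, _⟩ := hz
      rw [mem_Quad, mem_NonV, mem_NonV] at ht
      unfold code
      rw [sum_w1, sum_w1]
      exact ht.1.2.2.1
    · refine (hd_poly (s + s) N _ P hP (w2 s) (w2 s) (fun z hz => ?_) i j h a b ha hb hab).trans hPd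
      rw [mem_filter, mem_image] at hz
      obtain ⟨⟨t, ht, rfl⟩, _⟩ := hz
      rw [mem_Quad, mem_NonV, mem_NonV] at ht
      unfold code
      rw [sum_w2, sum_w2]
      exact ht.2.1.2.2.1.symm

/-- The codes which are permutations, for one permutation. -/
lemma part_p (s N : ℕ) (P : ℤ[X]) (hP : 0 < P.natDegree) (σ : Equiv.Perm (Fin (s + s))) :
    (((Quad s N P).image (code s)).filter (fun z => z.2 = z.1 ∘ σ)).card ≤
      P.natDegree * N ^ (s + s - 1) := by
  classical
  set S := ((Quad s N P).image (code s)).filter (fun z => z.2 = z.1 ∘ σ) with hS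
  rcases S.eq_empty_or_nonempty with h0 | ⟨z₀, hz₀⟩
  · rw [h0]
    simp
  -- a variable on one side only
  obtain ⟨j₀, i₀, hji⟩ : ∃ j₀ : Fin s, ∃ i₀ : Fin s, σ (Fin.castAdd s j₀) = Fin.natAdd s i₀ := by
    by_contra hcon
    push Not at hcon
    have h1 : ∀ j : Fin s, ∃ i : Fin s, σ (Fin.castAdd s j) = Fin.castAdd s i := by
      intro j
      refine Fin.addCases (motive := fun l => σ (Fin.castAdd s j) = l →
        ∃ i : Fin s, σ (Fin.castAdd s j) = Fin.castAdd s i) (fun i h => ⟨i, h⟩)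
        (fun i h => absurd h (hcon j i)) (σ (Fin.castAdd s j)) rfl
    choose τ hτ using h1
    have hτi : Function.Injective τ := by
      intro j j' h
      have h2 : σ (Fin.castAdd s j) = σ (Fin.castAdd s j') := by rw [hτ, hτ, h]
      exact Fin.castAdd_injective s s (σ.injective h2)
    rw [hS, mem_filter, mem_image] at hz₀
    obtain ⟨⟨t, ht, rfl⟩, hz2⟩ := hz₀
    rw [mem_Quad, mem_NonV] at ht
    refine ht.1.2.2.2 ⟨Equiv.ofBijective τ (Finite.injective_iff_bijective.1 hτi), ?_⟩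
    funext j
    have h3 := congrFun hz2 (Fin.castAdd s j)
    unfold code at h3
    simp only [Function.comp_apply, hτ, Fin.append_left] at h3
    exact h3
  set l₀ := σ (Fin.castAdd s j₀) with hl₀
  -- the constraint in terms of the first component
  have hcons : ∀ z ∈ S, z.1 ∈ box (s + s) N ∧ ∑ i : Fin s, P.eval (z.1 (Fin.castAdd s i) : ℤ) =
      P.eval (z.1 l₀ : ℤ) + ∑ j ∈ univ.erase j₀, P.eval (z.1 (σ (Fin.castAdd s j)) : ℤ) := by
    intro z hz
    rw [hS, mem_filter, mem_image] at hz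
    obtain ⟨⟨t, ht, rfl⟩, hz2⟩ := hz
    rw [mem_Quad, mem_NonV, mem_NonV] at ht
    refine ⟨box_append ht.1.1 ht.2.1.2.1, ?_⟩
    rw [hl₀, Finset.add_sum_erase univ (fun j => P.eval ((code s t).1 (σ (Fin.castAdd s j)) : ℤ))
      (mem_univ j₀)]
    have h1 : ∀ i : Fin s, (code s t).1 (Fin.castAdd s i) = t.1.1 i := by
      intro i
      unfold code
      simp only [Fin.append_left]
    have h2 : ∀ j : Fin s, (code s t).1 (σ (Fin.castAdd s j)) = t.1.2 j := by
      intro j
      have := congrFun hz2 (Fin.castAdd s j)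
      rw [Function.comp_apply] at this
      rw [← this]
      unfold code
      simp only [Fin.append_left]
    simp only [h1, h2]
    exact ht.1.2.2.1
  have hinj : Set.InjOn (Prod.fst : (Fin (s + s) → ℕ) × (Fin (s + s) → ℕ) → _) (S : Set _) := by
    intro z hz z' hz' h
    rw [mem_coe, hS, mem_filter] at hz hz'
    refine Prod.ext h ?_
    rw [hz.2, hz'.2]
    exact congrArg (fun f => f ∘ σ) h
  rw [← card_image_of_injOn hinj]
  set T := S.image Prod.fst with hT
  refine (card_le_mul_card_image (f := fun u => Function.update u l₀ 1) T P.natDegree ?_).trans ?_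
  · intro a ha
    rw [mem_image] at ha
    obtain ⟨u₁, hu₁, rfl⟩ := ha
    refine le_trans ?_ (roots_le P hP 1 0 (Or.inr (Or.inl ⟨rfl, rfl⟩)) 1 2 le_rfl (by norm_num)
      (by norm_num) (∑ i : Fin s, P.eval (u₁ (Fin.castAdd s i) : ℤ) -
        ∑ j ∈ univ.erase j₀, P.eval (u₁ (σ (Fin.castAdd s j)) : ℤ)) N)
    have hoff : ∀ u : Fin (s + s) → ℕ, Function.update u l₀ 1 = Function.update u₁ l₀ 1 →
        ∀ l, l ≠ l₀ → u l = u₁ l := by
      intro u hu l hl
      have := congrFun hu l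
      rwa [Function.update_of_ne hl, Function.update_of_ne hl] at this
    refine card_le_card_of_injOn (fun u => u l₀) (fun u hu => ?_) (fun u hu v hv h => ?_)
    · rw [mem_coe, mem_filter] at hu
      obtain ⟨hu1, hu2⟩ := hu
      rw [hT, mem_image] at hu1
      obtain ⟨z, hz, rfl⟩ := hu1
      have hc := hcons z hz
      rw [mem_coe, mem_filter, mem_range]
      have hb := (mem_box.1 hc.1 l₀).2
      refine ⟨Nat.lt_succ_of_le hb, ?_⟩
      have e1 : ∑ i : Fin s, P.eval (z.1 (Fin.castAdd s i) : ℤ) =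
          ∑ i : Fin s, P.eval (u₁ (Fin.castAdd s i) : ℤ) := by
        refine Finset.sum_congr rfl fun i _ => ?_
        rw [hoff z.1 hu2 _ (by
          rw [hji]
          intro h
          have := congrArg Fin.val h
          rw [Fin.val_castAdd, Fin.val_natAdd] at this
          omega)]
      have e2 : ∑ j ∈ univ.erase j₀, P.eval (z.1 (σ (Fin.castAdd s j)) : ℤ) =
          ∑ j ∈ univ.erase j₀, P.eval (u₁ (σ (Fin.castAdd s j)) : ℤ) := by
        refine Finset.sum_congr rfl fun j hj => ?_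
        rw [hoff z.1 hu2 _ (by
          rw [hl₀]
          intro h
          exact Finset.ne_of_mem_erase hj (Fin.castAdd_injective s s (σ.injective h)))]
      have h5 := hc.2
      rw [e1, e2] at h5
      rw [h5]
      simp
    · rw [mem_coe, mem_filter] at hu hv
      funext l
      by_cases hl : l = l₀
      · rw [hl]
        exact h
      · rw [hoff u hu.2 l hl, hoff v hv.2 l hl]
  · refine Nat.mul_le_mul_left _ ?_
    rw [← one_mul (N ^ (s + s - 1)), ← card_sbox (s + s) N l₀ 1]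
    refine card_le_card fun a ha => ?_
    rw [mem_image] at ha
    obtain ⟨u, hu, rfl⟩ := ha
    rw [hT, mem_image] at hu
    obtain ⟨z, hz, rfl⟩ := hu
    have hb := (hcons z hz).1
    rw [mem_sbox]
    intro l
    by_cases hl : l = l₀
    · subst hl
      simp
    · simp only [Function.update_of_ne hl, if_neg hl]
      exact mem_box.1 hb l

/-- The number of the pairs of nondiagonal solutions with equal cross products. -/
theorem quad_card (s d : ℕ) (hs : 1 ≤ s) : ∃ C : ℝ, 0 < C ∧ ∀ N : ℕ, 1 ≤ N → ∀ P : ℤ[X],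
    0 < P.natDegree → P.natDegree ≤ d →
    ((Quad s N P).card : ℝ) ≤ C * (N : ℝ) ^ (2 * (s : ℝ) - 1 / (4 * s + 2)) := by
  classical
  obtain ⟨C, hC0, hC⟩ := part_np s d hs
  set F : ℕ := Fintype.card (Equiv.Perm (Fin (s + s))) with hF
  refine ⟨C + F * d, by positivity, fun N hN P hP hPd => ?_⟩
  have hN1 : (1 : ℝ) ≤ N := by exact_mod_cast hN
  have hs1 : (1 : ℝ) ≤ s := by exact_mod_cast hs
  have h1 := hC N hN P hP hPd
  set J := (Quad s N P).image (code s) with hJ
  have hJc : J.card = (Quad s N P).card := card_image_of_injective _ (code_inj s)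
  have hsplit : J.card ≤ (J.filter (fun z => ¬ ∃ σ : Equiv.Perm (Fin (s + s)), z.2 = z.1 ∘ σ)).card
      + F * (P.natDegree * N ^ (s + s - 1)) := by
    have hsub : J ⊆ J.filter (fun z => ¬ ∃ σ : Equiv.Perm (Fin (s + s)), z.2 = z.1 ∘ σ) ∪
        (univ : Finset (Equiv.Perm (Fin (s + s)))).biUnion
          (fun σ => J.filter (fun z => z.2 = z.1 ∘ σ)) := by
      intro z hz
      rw [mem_union, mem_filter, mem_biUnion]
      by_cases h : ∃ σ : Equiv.Perm (Fin (s + s)), z.2 = z.1 ∘ σ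
      · obtain ⟨σ, hσ⟩ := h
        exact Or.inr ⟨σ, mem_univ _, mem_filter.2 ⟨hz, hσ⟩⟩
      · exact Or.inl ⟨hz, h⟩
    refine (card_le_card hsub).trans ((card_union_le _ _).trans (Nat.add_le_add_left ?_ _))
    refine card_biUnion_le.trans ?_
    refine (sum_le_card_nsmul _ _ (P.natDegree * N ^ (s + s - 1))
      fun σ _ => part_p s N P hP σ).trans ?_
    rw [smul_eq_mul, card_univ]
  have e1 : ((s + s : ℕ) : ℝ) - 1 / (2 * (((s + s : ℕ) : ℝ) + 1)) = 2 * (s : ℝ) - 1 / (4 * s + 2) := by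
    push_cast
    congr 1
    · ring
    · congr 1
      ring
  rw [e1] at h1
  have h2 : ((N : ℝ)) ^ (s + s - 1) ≤ (N : ℝ) ^ (2 * (s : ℝ) - 1 / (4 * s + 2)) := by
    rw [← Real.rpow_natCast]
    refine Real.rpow_le_rpow_of_exponent_le hN1 ?_
    rw [Nat.cast_sub (by omega)]
    push_cast
    have : 1 / (4 * (s : ℝ) + 2) ≤ 1 := by
      rw [div_le_one (by positivity)]
      linarith
    linarith
  have h3 : ((Quad s N P).card : ℝ) ≤
      (J.filter (fun z => ¬ ∃ σ : Equiv.Perm (Fin (s + s)), z.2 = z.1 ∘ σ)).card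
      + F * (P.natDegree * (N : ℝ) ^ (s + s - 1)) := by
    rw [← hJc]
    exact_mod_cast hsplit
  have h4 : (F : ℝ) * (P.natDegree * (N : ℝ) ^ (s + s - 1)) ≤
      F * d * (N : ℝ) ^ (2 * (s : ℝ) - 1 / (4 * s + 2)) := by
    rw [mul_assoc]
    refine mul_le_mul_of_nonneg_left ?_ (Nat.cast_nonneg _)
    exact mul_le_mul (by exact_mod_cast hPd) h2 (by positivity) (Nat.cast_nonneg _)
  rw [add_mul]
  linarith

end Pool.Agent.T2H28.EP
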